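import Pool.Agent.W355.FR.Stm

/-!
Project FR, part SUMP: summation over the primes.
-/

set_option autoImplicit false

namespace Pool.Agent.W81.FR

open Finset hiding box
open Polynomial Pool.Agent.W355.FR

lemma prime_dens (η : ℝ) (hη : 0 < η) : ∃ X : ℕ, ∀ N : ℕ, X ≤ N →
    (((range (N + 1)).filter Nat.Prime).card : ℝ) ≤ η * N := by
  have h1 := (Chebyshev.eventually_primeCounting_le (ε := 1) one_pos)
  have h2 : ∀ᶠ x : ℝ in Filter.atTop, (Real.log 4 + 1) / η ≤ Real.log x :=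
    Real.tendsto_log_atTop.eventually_ge_atTop _
  have h3 := (h1.and (h2.and (Filter.eventually_gt_atTop (1 : ℝ))))
  have h4 := (tendsto_natCast_atTop_atTop (R := ℝ)).eventually h3
  obtain ⟨X, hX⟩ := Filter.eventually_atTop.1 h4
  refine ⟨X, fun N hN => ?_⟩
  obtain ⟨h5, h6, h7⟩ := hX N hN
  rw [Nat.floor_natCast] at h5
  have e : ((range (N + 1)).filter Nat.Prime).card = Nat.primeCounting N := by
    rw [Nat.primeCounting, Nat.primeCounting', Nat.count_eq_card_filter_range]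
  rw [e]
  refine h5.trans ?_
  have hl : 0 < Real.log N := Real.log_pos h7
  rw [div_le_iff₀ hl]
  rw [div_le_iff₀ hη] at h6
  nlinarith

lemma hv_le (P : ℤ[X]) (hd : P.natDegree ≤ 4) : ∃ C : ℕ, 1 ≤ C ∧ ∀ (H : ℕ) (a b : ℤ), 1 ≤ H →
    |a| ≤ H → |b| ≤ H → |hv P.natDegree P a b| ≤ C * (H : ℤ) ^ 4 := by
  refine ⟨(∑ i ∈ range (P.natDegree + 1), |P.coeff i|).toNat + 1, by omega,
    fun H a b hH ha hb => ?_⟩
  have hHz : (1 : ℤ) ≤ H := by exact_mod_cast hH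
  unfold hv
  refine (abs_sum_le_sum_abs _ _).trans ?_
  have h1 : ∀ i ∈ range (P.natDegree + 1),
      |P.coeff i * a ^ i * b ^ (P.natDegree - i)| ≤ |P.coeff i| * (H : ℤ) ^ 4 := by
    intro i hi
    rw [mem_range] at hi
    rw [abs_mul, abs_mul, abs_pow, abs_pow, mul_assoc]
    apply mul_le_mul_of_nonneg_left _ (abs_nonneg _)
    calc |a| ^ i * |b| ^ (P.natDegree - i) ≤ (H : ℤ) ^ i * (H : ℤ) ^ (P.natDegree - i) := by gcongr
      _ = (H : ℤ) ^ (P.natDegree) := by rw [← pow_add]; congr 1; omega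
      _ ≤ (H : ℤ) ^ 4 := pow_le_pow_right₀ hHz hd
  calc _ ≤ ∑ i ∈ range (P.natDegree + 1), |P.coeff i| * (H : ℤ) ^ 4 := sum_le_sum h1
    _ = (∑ i ∈ range (P.natDegree + 1), |P.coeff i|) * (H : ℤ) ^ 4 := by rw [sum_mul]
    _ ≤ _ := by
      apply mul_le_mul_of_nonneg_right _ (by positivity)
      push_cast
      have := Int.self_le_toNat (∑ i ∈ range (P.natDegree + 1), |P.coeff i|)
      linarith

lemma box_abs {H : ℕ} {x : ℤ × ℤ} (hx : x ∈ box H) : |x.1| ≤ H ∧ |x.2| ≤ H ∧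
    Int.gcd x.1 x.2 = 1 := by
  unfold box at hx
  rw [mem_filter, mem_product, mem_Icc, mem_Icc] at hx
  exact ⟨abs_le.2 hx.1.1, abs_le.2 hx.1.2, hx.2⟩

theorem sump : P_SUMP := by
  classical
  intro hRL hCL P hirr hd0 hd4 δ hδ
  obtain ⟨p0, hp0⟩ := hRL P hirr hd0
  obtain ⟨C, hC1, hC⟩ := hv_le P hd4
  have hCr : (1 : ℝ) ≤ C := by exact_mod_cast hC1
  obtain ⟨X1, hX1⟩ := prime_dens (δ / 96) (by positivity)
  obtain ⟨X2, hX2⟩ := prime_dens (δ / (32 * C)) (by positivity)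
  refine ⟨max p0 ⌈96 / δ⌉₊ + 1, fun z hz => ?_⟩
  have hzp : p0 < z := by
    have := le_max_left p0 ⌈96 / δ⌉₊
    omega
  have hz96 : 96 / δ ≤ z := by
    have h1 := le_max_right p0 ⌈96 / δ⌉₊
    have h2 : ⌈96 / δ⌉₊ ≤ z := by omega
    exact (Nat.le_ceil _).trans (by exact_mod_cast h2)
  have hz0 : 0 < z := by omega
  have hzr : (0 : ℝ) < z := by exact_mod_cast hz0
  refine ⟨max X1 (max X2 ⌈32 / δ⌉₊) + 1, fun H hH s hs hsp => ?_⟩
  have hHX1 : X1 ≤ H := by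
    have := le_max_left X1 (max X2 ⌈32 / δ⌉₊)
    omega
  have hHX2 : X2 ≤ H := by
    have h1 := le_max_right X1 (max X2 ⌈32 / δ⌉₊)
    have h2 := le_max_left X2 ⌈32 / δ⌉₊
    omega
  have hH32 : 32 / δ ≤ H := by
    have h1 := le_max_right X1 (max X2 ⌈32 / δ⌉₊)
    have h2 := le_max_right X2 ⌈32 / δ⌉₊
    have h3 : ⌈32 / δ⌉₊ ≤ H := by omega
    exact (Nat.le_ceil _).trans (by exact_mod_cast h3)
  have hH1 : 1 ≤ H := by omega
  have hHr : (1 : ℝ) ≤ H := by exact_mod_cast hH1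
  set Af : ℕ → Finset (ℤ × ℤ) := fun p => (box H).filter
    (fun x => (p : ℤ) ^ 2 ∣ hv P.natDegree P x.1 x.2) with hAf
  have hbase : ∀ p : ℕ, p.Prime → p0 < p → ∃ R : Finset ℤ, R.card ≤ 4 ∧
      (Af p) ⊆ R.biUnion (fun r => (box H).filter (fun x => (p : ℤ) ^ 2 ∣ x.1 - r * x.2)) := by
    intro p hp hpp
    obtain ⟨R, hR, hR2⟩ := hp0 p hp hpp
    refine ⟨R, hR.trans hd4, ?_⟩
    intro x hx
    rw [hAf, mem_filter] at hx
    obtain ⟨r, hr, hr2, -⟩ := hR2 x.1 x.2 (box_abs hx.1).2.2 hx.2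
    rw [mem_biUnion]
    exact ⟨r, hr, mem_filter.2 ⟨hx.1, hr2⟩⟩
  have hA1 : ∀ p : ℕ, p.Prime → p0 < p →
      ((Af p).card : ℝ) ≤ 4 * ((2 * H + 1) * (2 * H / (p : ℝ) ^ 2 + 1)) := by
    intro p hp hpp
    obtain ⟨R, hR, hsub⟩ := hbase p hp hpp
    have h1 : ((Af p).card : ℝ) ≤ ∑ r ∈ R,
        (((box H).filter (fun x => (p : ℤ) ^ 2 ∣ x.1 - r * x.2)).card : ℝ) := by
      exact_mod_cast (card_le_card hsub).trans card_biUnion_le
    refine h1.trans ?_
    calc ∑ r ∈ R, (((box H).filter (fun x => (p : ℤ) ^ 2 ∣ x.1 - r * x.2)).card : ℝ)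
        ≤ ∑ _r ∈ R, (2 * (H : ℝ) + 1) * (2 * H / (p : ℝ) ^ 2 + 1) :=
          sum_le_sum fun r _ => (hCL H p r hp).1
      _ = R.card * ((2 * (H : ℝ) + 1) * (2 * H / (p : ℝ) ^ 2 + 1)) := by
          rw [sum_const, nsmul_eq_mul]
      _ ≤ 4 * ((2 * (H : ℝ) + 1) * (2 * H / (p : ℝ) ^ 2 + 1)) := by
          apply mul_le_mul_of_nonneg_right _ (by positivity)
          exact_mod_cast hR
  have hA2 : ∀ p : ℕ, p.Prime → p0 < p → 2 * H ^ 2 < p ^ 2 → (Af p).card ≤ 8 := by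
    intro p hp hpp hH2
    obtain ⟨R, hR, hsub⟩ := hbase p hp hpp
    refine (card_le_card hsub).trans (card_biUnion_le.trans ?_)
    calc ∑ r ∈ R, ((box H).filter (fun x => (p : ℤ) ^ 2 ∣ x.1 - r * x.2)).card
        ≤ ∑ _r ∈ R, 2 := sum_le_sum fun r _ => (hCL H p r hp).2 hH2
      _ = R.card * 2 := by rw [sum_const, smul_eq_mul]
      _ ≤ 8 := by omega
  -- the zeros
  set Z0 := (box H).filter (fun x => hv P.natDegree P x.1 x.2 = 0) with hZ0
  have hZc : Z0.card ≤ 8 := by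
    obtain ⟨q, hq1, hq2⟩ := Nat.exists_infinite_primes (p0 + 2 * H + 1)
    have h1 : Z0 ⊆ Af q := by
      intro x hx
      rw [hZ0, mem_filter] at hx
      rw [hAf, mem_filter]
      exact ⟨hx.1, by rw [hx.2]; exact dvd_zero _⟩
    refine (card_le_card h1).trans (hA2 q hq2 (by omega) ?_)
    have h2 : 2 * H < q := by omega
    nlinarith
  set S1 := (Ioc z (2 * H)).filter Nat.Prime with hS1
  set S2 := (Ioc (2 * H) (C * H ^ 2)).filter Nat.Prime with hS2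
  have hcov : s ⊆ (S1.biUnion Af ∪ (S2.filter (fun p => p0 < p)).biUnion Af) ∪ Z0 := by
    intro x hx
    have hxb := hs hx
    obtain ⟨p, hp, hzp', hdvd⟩ := hsp x hx
    rw [mem_union, mem_union]
    by_cases h0 : hv P.natDegree P x.1 x.2 = 0
    · right
      rw [hZ0, mem_filter]
      exact ⟨hxb, h0⟩
    · left
      have hxA : x ∈ Af p := by
        rw [hAf, mem_filter]
        exact ⟨hxb, hdvd⟩
      have hb := box_abs hxb
      have h1 : (p : ℤ) ^ 2 ≤ C * (H : ℤ) ^ 4 := by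
        refine le_trans ?_ (hC H x.1 x.2 hH1 hb.1 hb.2.1)
        exact Int.le_of_dvd (abs_pos.2 h0) ((dvd_abs _ _).2 hdvd)
      have h2 : p ^ 2 ≤ C * H ^ 4 := by exact_mod_cast h1
      have h3 : p ^ 2 ≤ (C * H ^ 2) ^ 2 := by
        calc p ^ 2 ≤ C * H ^ 4 := h2
          _ ≤ C ^ 2 * H ^ 4 := by
              apply Nat.mul_le_mul_right
              nlinarith
          _ = _ := by ring
      have h4 : p ≤ C * H ^ 2 := (Nat.pow_le_pow_iff_left (by norm_num)).1 h3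
      rcases le_or_gt p (2 * H) with h5 | h5
      · left
        rw [mem_biUnion]
        exact ⟨p, mem_filter.2 ⟨mem_Ioc.2 ⟨hzp', h5⟩, hp⟩, hxA⟩
      · right
        rw [mem_biUnion]
        exact ⟨p, mem_filter.2 ⟨mem_filter.2 ⟨mem_Ioc.2 ⟨h5, h4⟩, hp⟩, by omega⟩, hxA⟩
  have hcard : (s.card : ℝ) ≤ (∑ p ∈ S1, ((Af p).card : ℝ)) +
      (∑ p ∈ S2.filter (fun p => p0 < p), ((Af p).card : ℝ)) + Z0.card := by
    have h1 : s.card ≤ (∑ p ∈ S1, (Af p).card) + (∑ p ∈ S2.filter (fun p => p0 < p), (Af p).card) +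
        Z0.card := by
      refine (card_le_card hcov).trans ((card_union_le _ _).trans ?_)
      apply Nat.add_le_add_right
      refine (card_union_le _ _).trans ?_
      exact Nat.add_le_add card_biUnion_le card_biUnion_le
    exact_mod_cast h1
  have hsum1 : ∑ p ∈ S1, ((Af p).card : ℝ) ≤ δ / 4 * (H : ℝ) ^ 2 + δ / 4 * (H : ℝ) ^ 2 := by
    have h1 : ∑ p ∈ S1, ((Af p).card : ℝ) ≤
        ∑ p ∈ S1, (4 * ((2 * (H : ℝ) + 1) * (2 * H)) * (((p : ℝ) ^ 2)⁻¹) + 4 * (2 * (H : ℝ) + 1)) := by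
      refine sum_le_sum fun p hp => ?_
      rw [hS1, mem_filter, mem_Ioc] at hp
      refine (hA1 p hp.2 (by omega)).trans (le_of_eq ?_)
      rw [div_eq_mul_inv]
      ring
    refine h1.trans ?_
    rw [sum_add_distrib, ← mul_sum, sum_const, nsmul_eq_mul]
    have h2 : ∑ p ∈ S1, (((p : ℝ) ^ 2)⁻¹) ≤ (z : ℝ)⁻¹ := by
      rcases le_or_gt z (2 * H) with h3 | h3
      · calc ∑ p ∈ S1, (((p : ℝ) ^ 2)⁻¹) ≤ ∑ p ∈ Ioc z (2 * H), (((p : ℝ) ^ 2)⁻¹) :=
              sum_le_sum_of_subset_of_nonneg (filter_subset _ _) fun _ _ _ => by positivity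
          _ ≤ (z : ℝ)⁻¹ - ((2 * H : ℕ) : ℝ)⁻¹ := sum_Ioc_inv_sq_le_sub hz0.ne' h3
          _ ≤ (z : ℝ)⁻¹ := by
              have : (0 : ℝ) ≤ ((2 * H : ℕ) : ℝ)⁻¹ := by positivity
              linarith
      · have : S1 = ∅ := by
          rw [hS1, Ioc_eq_empty (by omega), filter_empty]
        rw [this, sum_empty]
        positivity
    have h4 : (S1.card : ℝ) ≤ δ / 96 * ((2 * H : ℕ) : ℝ) := by
      refine le_trans ?_ (hX1 (2 * H) (by omega))
      have : S1 ⊆ (range (2 * H + 1)).filter Nat.Prime := by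
        intro p hp
        rw [hS1, mem_filter, mem_Ioc] at hp
        rw [mem_filter, mem_range]
        exact ⟨by omega, hp.2⟩
      exact_mod_cast card_le_card this
    have h5 : (z : ℝ)⁻¹ ≤ δ / 96 := by
      rw [inv_le_comm₀ hzr (by positivity)]
      calc (δ / 96)⁻¹ = 96 / δ := by rw [inv_div]
        _ ≤ z := hz96
    have h6 : 2 * (H : ℝ) + 1 ≤ 3 * H := by linarith
    push_cast at h4
    have e1 : 4 * ((2 * (H : ℝ) + 1) * (2 * H)) * (∑ p ∈ S1, (((p : ℝ) ^ 2)⁻¹)) ≤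
        δ / 4 * (H : ℝ) ^ 2 := by
      calc _ ≤ 4 * ((3 * (H : ℝ)) * (2 * H)) * (δ / 96) := by
            apply mul_le_mul _ (h2.trans h5) (sum_nonneg fun _ _ => by positivity) (by positivity)
            gcongr
        _ = _ := by ring
    have e2 : (S1.card : ℝ) * (4 * (2 * (H : ℝ) + 1)) ≤ δ / 4 * (H : ℝ) ^ 2 := by
      calc _ ≤ (δ / 96 * (2 * (H : ℝ))) * (4 * (3 * H)) := by
            apply mul_le_mul h4 (by linarith) (by positivity) (by positivity)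
        _ = _ := by ring
    linarith
  have hsum2 : ∑ p ∈ S2.filter (fun p => p0 < p), ((Af p).card : ℝ) ≤ δ / 4 * (H : ℝ) ^ 2 := by
    have h1 : ∑ p ∈ S2.filter (fun p => p0 < p), ((Af p).card : ℝ) ≤
        ∑ _p ∈ S2.filter (fun p => p0 < p), (8 : ℝ) := by
      refine sum_le_sum fun p hp => ?_
      rw [mem_filter, hS2, mem_filter, mem_Ioc] at hp
      have := hA2 p hp.1.2 hp.2 (by nlinarith [hp.1.1.1])
      exact_mod_cast this
    refine h1.trans ?_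
    rw [sum_const, nsmul_eq_mul]
    have h4 : ((S2.filter (fun p => p0 < p)).card : ℝ) ≤ δ / (32 * C) * ((C * H ^ 2 : ℕ) : ℝ) := by
      refine le_trans ?_ (hX2 (C * H ^ 2) (by nlinarith))
      have : S2.filter (fun p => p0 < p) ⊆ (range (C * H ^ 2 + 1)).filter Nat.Prime := by
        intro p hp
        rw [mem_filter, hS2, mem_filter, mem_Ioc] at hp
        rw [mem_filter, mem_range]
        exact ⟨by omega, hp.1.2⟩
      exact_mod_cast card_le_card this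
    push_cast at h4
    have hC0 : (C : ℝ) ≠ 0 := by positivity
    have h5 : δ / (32 * (C : ℝ)) * (C * (H : ℝ) ^ 2) = δ / 32 * (H : ℝ) ^ 2 := by
      field_simp
    rw [h5] at h4
    linarith
  have hZr : (Z0.card : ℝ) ≤ δ / 4 * (H : ℝ) ^ 2 := by
    have h1 : (Z0.card : ℝ) ≤ 8 := by exact_mod_cast hZc
    rw [div_le_iff₀ hδ] at hH32
    nlinarith
  linarith

end Pool.Agent.W81.FR
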